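import Pool.Agent.Helper83.Rel.Defs
import Pool.Agent.Helper56.CB.TriF

/-!
# T-REL: two small lemmas
-/

set_option autoImplicit false

namespace Pool.Agent.Helper83.Rel

open NumberField Pool.Agent.Helper4.CB MvPolynomial Pool.Agent.Helper65.CB
open Pool.Agent.Helper69.CB Filter

/-- `hs_of_point` for two numbers -/
theorem hs_of_vals {K : Type} [Field K] [NumberField K] {J : ℕ} {x y : K} (hx : x ≠ 0)
    (hy : y ≠ 0) (H : ∀ p : Pl K, nm p ≡ 1 [MOD 2 ^ J] →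
      ∃ (z a1 b1 g h : K) (e f : ℕ), x = z ^ e * a1 ∧ y = z ^ f * b1 ∧ vl p a1 = 1 ∧
        vl p b1 = 1 ∧ vl p g = 1 ∧
        vl p (g ^ 2 * ((-1) ^ (e * f) * (a1 ^ f * b1 ^ e)) - h ^ 2) < 1) : HS K J x y := by
  have h1 := Pool.Agent.Helper56.CB.hs_of_point (K := K) (n := 0) (J := J) (a := C x) (b := C y)
    (t := fun i => i.elim0) (by rwa [eval_C]) (by rwa [eval_C]) (by
      intro p hp
      rw [eval_C, eval_C]
      exact H p hp)
  rwa [eval_C, eval_C] at h1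

theorem ev_of {Q : ℕ → Prop} (h : ∃ J0 : ℕ, ∀ J, J0 ≤ J → Q J) : ∀ᶠ J in atTop, Q J :=
  eventually_atTop.2 h

end Pool.Agent.Helper83.Rel
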