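import Pool.Agent.Helper69.CB.TriDefs

/-!
# T-REL: relative form of T-TRI over a projective base `T` with dense rational points, definitions

`R` is the homogeneous coordinate ring of `T`, generated by `τ 0, .., τ (N - 1)`.
-/

set_option autoImplicit false

namespace Pool.Agent.Helper83.Rel

open NumberField Pool.Agent.Helper4.CB Pool.Agent.Helper69.CB

variable {K : Type} [Field K] [NumberField K] {R : Type} [CommRing R] [Algebra K R]

/-- at all bad places the coordinates of the point `φ` are integral and one of them is a unit -/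
def Nrm (J : ℕ) {N : ℕ} (τ : Fin N → R) (φ : R →ₐ[K] K) : Prop :=
  ∀ p : Pl K, Bad J p → (∀ l, vl p (φ (τ l)) ≤ 1) ∧ ∃ l, vl p (φ (τ l)) = 1

/-- at all bad places and all points of `Φ` the elements of `U` are integral and one of them is a
unit -/
def UnitAt (J : ℕ) (Φ : (R →ₐ[K] K) → Prop) (U : Set R) : Prop :=
  ∀ φ, Φ φ → ∀ p : Pl K, Bad J p → (∀ c ∈ U, vl p (φ c) ≤ 1) ∧ ∃ c ∈ U, vl p (φ c) = 1

/-- all coefficients of the members of a set of polynomials -/
def Coefs {n : ℕ} (T : Set (MvPolynomial (Fin n) R)) : Set R :=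
  {c | ∃ f ∈ T, ∃ m, c = f.coeff m}

/-- some power of every coordinate lies in the ideal generated by the coefficients: the
coefficients have no common zero on `T` -/
def NoZero {N : ℕ} (τ : Fin N → R) {n : ℕ} (T : Set (MvPolynomial (Fin n) R)) : Prop :=
  ∀ l, ∃ s : ℕ, τ l ^ s ∈ Ideal.span (Coefs T)

end Pool.Agent.Helper83.Rel
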