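import Pool.Agent.Helper83.Rel.TriRel
import Pool.Agent.Helper83.Rel.Util
import Pool.Agent.Helper43.Rel.R3R4
import Pool.Agent.Helper49.Rel.Nrm
import Pool.Agent.Helper17.Rel.Scale

/-!
# T-REL: harmless points are dense
-/

set_option autoImplicit false

namespace Pool.Agent.Helper83.Rel

open NumberField Pool.Agent.Helper4.CB MvPolynomial Pool.Agent.Helper65.CB
open Pool.Agent.Helper69.CB Filter

/-- the symbol `(a, b)` is unramified along `P`, and this is visible everywhere over `T`: `P` and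
`a1 b1 g` are coprime over the function field of `T` and their coefficients have no common zero
on `T` -/
def LCR {K : Type} [Field K] {R : Type} [CommRing R] [Algebra K R] (L : Type) [Field L]
    [Algebra R L] {N : ℕ} (τ : Fin N → R) {n : ℕ} (P a b : MvPolynomial (Fin n) R) : Prop :=
  ∃ (e f : ℕ) (a1 b1 g h w : MvPolynomial (Fin n) R), a = P ^ e * a1 ∧ b = P ^ f * b1 ∧
    g ^ 2 * ((-1) ^ (e * f) * (a1 ^ f * b1 ^ e)) - h ^ 2 = P * w ∧
    (∀ q : MvPolynomial (Fin n) L, Irreducible q → q ∣ map (algebraMap R L) P →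
      ¬ q ∣ map (algebraMap R L) (a1 * b1 * g)) ∧
    NoZero τ ({P, a1 * b1 * g} : Set (MvPolynomial (Fin n) R))

/-- **R7.** -/
theorem rel_harmless {K : Type} [Field K] [NumberField K] {R : Type} [CommRing R] [IsDomain R]
    [Algebra K R] (L : Type) [Field L] [Algebra R L] [IsFractionRing R L] {dm : ℕ}
    (hE : ∀ A Dg J0 : ℕ, ∃ J, J0 ≤ J ∧ StepD K J dm A Dg) {N : ℕ} (τ : Fin N → R)
    (hgen : Algebra.adjoin K (Set.range τ) = ⊤)
    (hcone : ∀ φ : R →ₐ[K] K, ∃ ψ : R →ₐ[K] Polynomial K, ∀ l,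
      ψ (τ l) = Polynomial.X * Polynomial.C (φ (τ l)))
    (hdense : ∀ f : R, f ≠ 0 → ∃ φ : R →ₐ[K] K, φ f ≠ 0) (hτ : ∃ l, τ l ≠ 0)
    {n : ℕ} {r ι : Type} [Fintype r] [Fintype ι] (a b : r → MvPolynomial (Fin n) R)
    (P : ι → MvPolynomial (Fin n) R) (α β : r → K) (ea eb : r → ι → ℕ)
    (hα : ∀ q, α q ≠ 0) (hβ : ∀ q, β q ≠ 0) (hP0 : ∀ i, P i ≠ 0)
    (ha : ∀ q, a q = C (algebraMap K R (α q)) * ∏ i, P i ^ ea q i)
    (hb : ∀ q, b q = C (algebraMap K R (β q)) * ∏ i, P i ^ eb q i)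
    (hP : ∀ i, (Irreducible (map (algebraMap R L) (P i)) ∧
        TriDeg dm (map (algebraMap R L) (P i)) ∧
        NoZero τ ({P i} : Set (MvPolynomial (Fin n) R))) ∨
      ∀ q, (ea q i ≠ 0 ∨ eb q i ≠ 0) → LCR (K := K) L τ (P i) (a q) (b q)) :
    ∃ J, ∀ f : MvPolynomial (Fin n) R, f ≠ 0 → ∃ φ : MvPolynomial (Fin n) R →ₐ[K] K, φ f ≠ 0 ∧
      ∀ q, HS K J (φ (a q)) (φ (b q)) := by
  classical
  -- the two kinds of factors
  let κ : Type := {x : r × ι // (ea x.1 x.2 ≠ 0 ∨ eb x.1 x.2 ≠ 0) ∧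
    LCR (K := K) L τ (P x.2) (a x.1) (b x.1)}
  let ι1 : Type := {i : ι // Irreducible (map (algebraMap R L) (P i)) ∧
        TriDeg dm (map (algebraMap R L) (P i)) ∧
        NoZero τ ({P i} : Set (MvPolynomial (Fin n) R))}
  have hL : ∀ j : κ, ∃ (e f : ℕ) (a1 b1 g h w : MvPolynomial (Fin n) R),
      a j.1.1 = P j.1.2 ^ e * a1 ∧ b j.1.1 = P j.1.2 ^ f * b1 ∧
      g ^ 2 * ((-1) ^ (e * f) * (a1 ^ f * b1 ^ e)) - h ^ 2 = P j.1.2 * w ∧
      (∀ q : MvPolynomial (Fin n) L, Irreducible q → q ∣ map (algebraMap R L) (P j.1.2) →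
        ¬ q ∣ map (algebraMap R L) (a1 * b1 * g)) ∧
      NoZero τ ({P j.1.2, a1 * b1 * g} : Set (MvPolynomial (Fin n) R)) := fun j => j.2.2
  choose e f a1 b1 g h w h1 h2 h3 h4 h5 using hL
  let T : κ → Finset (MvPolynomial (Fin n) R) := fun j => {P j.1.2, a1 j * b1 j * g j}
  let F : ι1 → MvPolynomial (Fin n) R := fun i => P i.1
  -- all polynomials which have to be integral
  let PP : Finset (MvPolynomial (Fin n) R) := Finset.univ.image P ∪
    Finset.univ.biUnion (fun j : κ => {a1 j * b1 j * g j, a1 j, b1 j, g j, h j, w j})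
  -- J large
  have hcint : ∀ᶠ J in atTop, ∀ q ∈ PP, ∀ m, ∀ φ : R →ₐ[K] K, ∀ p : Pl K, Bad J p →
      (∀ l, vl p (φ (τ l)) ≤ 1) → vl p (φ (q.coeff m)) ≤ 1 := by
    rw [Filter.eventually_all_finset]
    intro q _
    have hq : ∀ᶠ J in atTop, ∀ m ∈ q.support, ∀ φ : R →ₐ[K] K, ∀ p : Pl K, Bad J p →
        (∀ l, vl p (φ (τ l)) ≤ 1) → vl p (φ (q.coeff m)) ≤ 1 := by
      rw [Filter.eventually_all_finset]
      exact fun m _ => ev_of (Pool.Agent.Helper43.Rel.int_of_gen τ hgen (q.coeff m))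
    filter_upwards [hq] with J hJ m φ p hp hl
    by_cases hm : m ∈ q.support
    · exact hJ m hm φ p hp hl
    · rw [notMem_support_iff.1 hm, map_zero, map_zero]
      exact zero_le
  have hUF : ∀ᶠ J in atTop, ∀ i : ι1,
      UnitAt (K := K) J (Nrm J τ) (Coefs ({F i} : Set (MvPolynomial (Fin n) R))) := by
    rw [Filter.eventually_all]
    intro i
    have h6 := ev_of (Pool.Agent.Helper43.Rel.unitAt_of_noZero (K := K) τ hgen ({P i.1} : Finset (MvPolynomial (Fin n) R))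
      (by rw [Finset.coe_singleton]; exact i.2.2.2))
    simpa only [Finset.coe_singleton] using h6
  have hUT : ∀ᶠ J in atTop, ∀ k : κ,
      UnitAt (K := K) J (Nrm J τ) (Coefs (T k : Set (MvPolynomial (Fin n) R))) := by
    rw [Filter.eventually_all]
    intro k
    refine ev_of (Pool.Agent.Helper43.Rel.unitAt_of_noZero (K := K) τ hgen (T k) ?_)
    have h6 := h5 k
    simpa only [T, Finset.coe_insert, Finset.coe_singleton] using h6
  have hst : ∀ᶠ J in atTop, ∀ p : Pl K, nm p ≡ 1 [MOD 2 ^ J] →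
      0 < nm p ∧ ∀ x ∈ (Finset.univ.image α ∪ Finset.univ.image β : Finset K), x ≠ 0 →
        p.valuation K x = 1 :=
    ev_of (Pool.Agent.Helper43.CB.start K _ 0)
  have hnr : ∀ᶠ J in atTop, ∀ f : R, f ≠ 0 → ∃ φ : R →ₐ[K] K, Nrm J τ φ ∧ φ f ≠ 0 :=
    ev_of (Pool.Agent.Helper49.Rel.exists_nrm_of (Pool.Agent.Helper17.Rel.exists_scale K N) τ hgen
      hcone hdense hτ)
  obtain ⟨J0, hJ0⟩ := eventually_atTop.1 (hcint.and (hUF.and (hUT.and (hst.and hnr))))
  -- the degrees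
  let Dg : ℕ := (PP.sup MvPolynomial.totalDegree)
  have hdeg : ∀ q ∈ PP, ∀ j, q.degreeOf j ≤ Dg := fun q hq j =>
    (MvPolynomial.degreeOf_le_totalDegree q j).trans
      (Finset.le_sup (f := MvPolynomial.totalDegree) hq)
  obtain ⟨J, hJ, hD⟩ := hE (Fintype.card ι1 + Fintype.card κ) Dg J0
  obtain ⟨kint, kF, kT, kst, knr⟩ := hJ0 J hJ
  refine ⟨J, fun f0 hf0 => ?_⟩
  have hPP : ∀ i, P i ∈ PP := fun i =>
    Finset.mem_union_left _ (Finset.mem_image_of_mem _ (Finset.mem_univ i))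
  have hκPP : ∀ j : κ, ∀ q ∈ ({a1 j * b1 j * g j, a1 j, b1 j, g j, h j, w j} :
      Finset (MvPolynomial (Fin n) R)), q ∈ PP := fun j q hq =>
    Finset.mem_union_right _ (Finset.mem_biUnion.2 ⟨j, Finset.mem_univ _, hq⟩)
  have hTP : ∀ j : κ, ∀ q ∈ T j, q ∈ PP := fun j q hq => by
    rcases Finset.mem_insert.1 hq with rfl | hq
    · exact hPP _
    · rw [Finset.mem_singleton.1 hq]
      exact hκPP j _ (by simp)
  obtain ⟨φ, t, hφ, htH, htp⟩ := triRel L hD (Nrm J τ) (fun f hf => knr f hf) n ι1 κ F T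
    (f0 * ∏ i, P i) le_rfl
    (fun i => ⟨i.2.1, i.2.2.1⟩)
    (by
      intro k q hq
      by_cases hd : q ∣ map (algebraMap R L) (P k.1.2)
      · exact ⟨_, Finset.mem_insert_of_mem (Finset.mem_singleton_self _), h4 k q hq hd⟩
      · exact ⟨_, Finset.mem_insert_self _ _, hd⟩)
    (fun i j => hdeg _ (hPP i.1) j)
    (fun k q hq j => hdeg q (hTP k q hq) j)
    kF kT
    (mul_ne_zero hf0 (Finset.prod_ne_zero_iff.2 fun i _ => hP0 i))
  rw [map_mul, map_prod] at htH
  have hPt : ∀ i, aevalTower φ t (P i) ≠ 0 := fun i =>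
    Finset.prod_ne_zero_iff.1 (right_ne_zero_of_mul htH) i (Finset.mem_univ i)
  have hCφ : ∀ x : K, aevalTower φ t (C (algebraMap K R x)) = x := by
    intro x
    rw [aevalTower_C, AlgHom.commutes]
    rfl
  have hat : ∀ q, aevalTower φ t (a q) = α q * ∏ i, aevalTower φ t (P i) ^ ea q i := by
    intro q
    rw [ha q, map_mul, hCφ, map_prod]
    simp only [map_pow]
  have hbt : ∀ q, aevalTower φ t (b q) = β q * ∏ i, aevalTower φ t (P i) ^ eb q i := by
    intro q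
    rw [hb q, map_mul, hCφ, map_prod]
    simp only [map_pow]
  refine ⟨aevalTower φ t, left_ne_zero_of_mul htH, fun q => hs_of_vals ?_ ?_ ?_⟩
  · rw [hat]
    exact mul_ne_zero (hα q) (Finset.prod_ne_zero_iff.2 fun i _ => pow_ne_zero _ (hPt i))
  · rw [hbt]
    exact mul_ne_zero (hβ q) (Finset.prod_ne_zero_iff.2 fun i _ => pow_ne_zero _ (hPt i))
  intro p hp
  obtain ⟨ht, hFF, hTT⟩ := htp p hp
  have hev : ∀ Q ∈ PP, vl p (aevalTower φ t Q) ≤ 1 := fun Q hQ =>
    vl_tower_le p φ ht Q (fun m => kint Q hQ m φ p hp (hφ p hp).1)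
  have key : ∀ x y : WithZero (Multiplicative ℤ), x ≤ 1 → y ≤ 1 → x * y = 1 → x = 1 ∧ y = 1 := by
    intro x y hx hy hxy
    have h1 : 1 ≤ x := by
      rw [← hxy]
      exact mul_le_of_le_one_right' hy
    have h2 : 1 ≤ y := by
      rw [← hxy]
      exact mul_le_of_le_one_left' hx
    exact ⟨le_antisymm hx h1, le_antisymm hy h2⟩
  by_cases hex : ∃ i, (ea q i ≠ 0 ∨ eb q i ≠ 0) ∧ vl p (aevalTower φ t (P i)) < 1
  · obtain ⟨i, hi, hiv⟩ := hex
    have hLi : LCR (K := K) L τ (P i) (a q) (b q) := by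
      rcases hP i with hF | hF
      · exact absurd (hFF ⟨i, hF⟩) hiv.ne
      · exact hF q hi
    let j : κ := ⟨(q, i), hi, hLi⟩
    have hunit3 : vl p (aevalTower φ t (a1 j * b1 j * g j)) = 1 := by
      obtain ⟨Q, hQ, hQ1⟩ := hTT j
      rcases Finset.mem_insert.1 hQ with rfl | hQ
      · exact absurd hQ1 hiv.ne
      · rwa [Finset.mem_singleton.1 hQ] at hQ1
    rw [map_mul, map_mul, map_mul, map_mul] at hunit3
    have ha1v := hev (a1 j) (hκPP j _ (by simp))
    have hb1v := hev (b1 j) (hκPP j _ (by simp))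
    have hgv := hev (g j) (hκPP j _ (by simp))
    have hwv := hev (w j) (hκPP j _ (by simp))
    obtain ⟨hab2, hg1⟩ := key _ _ (mul_le_one' ha1v hb1v) hgv hunit3
    obtain ⟨ha11, hb11⟩ := key _ _ ha1v hb1v hab2
    refine ⟨aevalTower φ t (P i), aevalTower φ t (a1 j), aevalTower φ t (b1 j),
      aevalTower φ t (g j), aevalTower φ t (h j), e j, f j, ?_, ?_, ha11, hb11, hg1, ?_⟩
    · have := congrArg (aevalTower φ t) (h1 j)
      rwa [map_mul, map_pow] at this
    · have := congrArg (aevalTower φ t) (h2 j)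
      rwa [map_mul, map_pow] at this
    · have h7 := congrArg (aevalTower φ t) (h3 j)
      simp only [map_mul, map_pow, map_sub, map_neg, map_one] at h7
      rw [h7, map_mul]
      exact mul_lt_one_of_lt_of_le hiv hwv
  · push Not at hex
    have hu : ∀ i, (ea q i ≠ 0 ∨ eb q i ≠ 0) → vl p (aevalTower φ t (P i)) = 1 := fun i hi =>
      le_antisymm (hev _ (hPP i)) (hex i hi)
    refine ⟨1, aevalTower φ t (a q), aevalTower φ t (b q), 1, 1, 0, 0, by rw [pow_zero, one_mul],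
      by rw [pow_zero, one_mul], ?_, ?_, map_one _, ?_⟩
    · rw [hat, map_mul, map_prod, (kst p hp).2 _ (Finset.mem_union_left _
        (Finset.mem_image_of_mem _ (Finset.mem_univ q))) (hα q), one_mul]
      refine Finset.prod_eq_one fun i _ => ?_
      rw [map_pow]
      by_cases h0 : ea q i = 0
      · rw [h0, pow_zero]
      · rw [hu i (Or.inl h0), one_pow]
    · rw [hbt, map_mul, map_prod, (kst p hp).2 _ (Finset.mem_union_right _
        (Finset.mem_image_of_mem _ (Finset.mem_univ q))) (hβ q), one_mul]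
      refine Finset.prod_eq_one fun i _ => ?_
      rw [map_pow]
      by_cases h0 : eb q i = 0
      · rw [h0, pow_zero]
      · rw [hu i (Or.inr h0), one_pow]
    · simp

end Pool.Agent.Helper83.Rel
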