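import Pool.Agent.Helper83.Rel.Harm2
import Pool.Agent.Helper83.RelQ.Defs
import Pool.Agent.Helper35.CB.Final
import Pool.Agent.Helper10.TRI.StepD
import Pool.Agent.Helper23.CB.SieveGThree

/-!
# T-REL: the theorem for products of conic bundles over `T × A^n`
-/

set_option autoImplicit false

namespace Pool.Agent.Helper83.Rel

open NumberField Pool.Agent.Helper4.CB MvPolynomial Pool.Agent.Helper65.CB
open Pool.Agent.Helper69.CB Pool.Agent.Helper83.RelQ
open AlgebraicGeometry CategoryTheory Pool.Agent.Helper15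

/-- no common zero implies nonzero -/
theorem NoZero.ne_zero {R : Type} [CommRing R] [IsDomain R] {M : ℕ} {τ : Fin M → R} {n : ℕ}
    {f : MvPolynomial (Fin n) R} (h : NoZero τ ({f} : Set (MvPolynomial (Fin n) R)))
    (hτ : ∃ l, τ l ≠ 0) : f ≠ 0 := by
  rintro rfl
  obtain ⟨l, hl⟩ := hτ
  obtain ⟨s, hs⟩ := h l
  have h1 : Ideal.span (Coefs ({0} : Set (MvPolynomial (Fin n) R))) = ⊥ := by
    rw [Ideal.span_eq_bot]
    rintro c ⟨f, hf, m, rfl⟩
    rw [Set.mem_singleton_iff] at hf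
    rw [hf, coeff_zero]
  rw [h1, Ideal.mem_bot] at hs
  exact hl (eq_zero_of_pow_eq_zero hs)

/-- **T-REL**, abstract form of the base -/
theorem t_rel_abs {K : Type} [Field K] [NumberField K] {R : Type} [CommRing R] [IsDomain R]
    [Algebra K R] {M : ℕ} (τ : Fin M → R) (hgen : Algebra.adjoin K (Set.range τ) = ⊤)
    (hcone : ∀ φ : R →ₐ[K] K, ∃ ψ : R →ₐ[K] Polynomial K, ∀ l,
      ψ (τ l) = Polynomial.X * Polynomial.C (φ (τ l)))
    (hdense : ∀ f : R, f ≠ 0 → ∃ φ : R →ₐ[K] K, φ f ≠ 0) (hτ : ∃ l, τ l ≠ 0)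
    {n r : ℕ} (a b : Fin r → MvPolynomial (Fin n) R)
    (ha : ∀ i, NoZero τ ({a i} : Set (MvPolynomial (Fin n) R)))
    (hb : ∀ i, NoZero τ ({b i} : Set (MvPolynomial (Fin n) R)))
    (hP : ∀ i, ∀ P : MvPolynomial (Fin n) (FractionRing R), Irreducible P →
      P ∣ map (algebraMap R (FractionRing R)) (a i * b i) → TriDeg 3 P) :
    PotentiallyDense K (Spec (CommRingCat.of (CRingR a b)))
      (Spec.map (CommRingCat.ofHom (algebraMap K (CRingR a b)))) := by
  obtain ⟨J, hJ⟩ := rel_harmless2 (FractionRing R) (dm := 3)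
    (Pool.Agent.Helper10.TRI.stepD_of_sieve K (Pool.Agent.Helper23.CB.sieveG_three K))
    τ hgen hcone hdense hτ (Sum.elim a b)
    (by
      rintro (i | i)
      · exact (ha i).ne_zero hτ
      · exact (hb i).ne_zero hτ)
    (by
      rintro (i | i)
      · exact ha i
      · exact hb i)
    (by
      rintro (i | i) P hPi hd
      · refine hP i P hPi ?_
        rw [map_mul]
        exact dvd_mul_of_dvd_left hd _
      · refine hP i P hPi ?_
        rw [map_mul]
        exact dvd_mul_of_dvd_right hd _)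
  refine Pool.Agent.Helper35.CB.end_fam_spec K K (MvPolynomial (Fin n) R) r a b J
    (fun f hf => ?_)
  obtain ⟨φ, hφ, h⟩ := hJ f hf
  refine ⟨φ, hφ, fun i => hs_of_vals (h (Sum.inl i)).1 (h (Sum.inr i)).1 fun p hp => ?_⟩
  refine ⟨1, φ (a i), φ (b i), 1, 1, 0, 0, by rw [pow_zero, one_mul],
      by rw [pow_zero, one_mul], (h (Sum.inl i)).2 p hp, (h (Sum.inr i)).2 p hp, map_one _, ?_⟩
  simp

end Pool.Agent.Helper83.Rel
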