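import Pool.Agent.Helper49.CB.Cop

/-!
# T-REL: Bezout for tuples which are coprime over the field of fractions of the coefficient ring
-/

set_option autoImplicit false

namespace Pool.Agent.Helper83.Rel

open Pool.Agent.Helper49.CB

variable {R L : Type} [CommRing R] [IsDomain R] [Field L] [Algebra R L] [IsFractionRing R L]

omit [IsDomain R] in
/-- the square of `finSuccEquiv` and a change of coefficients -/
theorem finSucc_map {n : ℕ} (f : MvPolynomial (Fin (n + 1)) R) :
    MvPolynomial.finSuccEquiv L n (MvPolynomial.map (algebraMap R L) f) =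
      (MvPolynomial.finSuccEquiv R n f).map (MvPolynomial.map (algebraMap R L)) := by
  ext i m
  rw [MvPolynomial.finSuccEquiv_coeff_coeff, MvPolynomial.coeff_map, Polynomial.coeff_map,
    MvPolynomial.coeff_map, MvPolynomial.finSuccEquiv_coeff_coeff]

theorem clearMv {n : ℕ} (g : MvPolynomial (Fin n) L) :
    ∃ (d : R) (g' : MvPolynomial (Fin n) R), d ≠ 0 ∧
      MvPolynomial.map (algebraMap R L) g' = MvPolynomial.C (algebraMap R L d) * g := by
  induction g using MvPolynomial.induction_on with
  | C a =>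
    obtain ⟨r, s, hs, rfl⟩ := IsFractionRing.div_surjective (A := R) a
    have hs0 : algebraMap R L s ≠ 0 := by
      rw [Ne, FaithfulSMul.algebraMap_eq_zero_iff]
      exact nonZeroDivisors.ne_zero hs
    refine ⟨s, MvPolynomial.C r, nonZeroDivisors.ne_zero hs, ?_⟩
    rw [MvPolynomial.map_C, ← MvPolynomial.C_mul]
    congr 1
    field_simp
  | add g1 g2 h1 h2 =>
    obtain ⟨d1, k1, hd1, e1⟩ := h1
    obtain ⟨d2, k2, hd2, e2⟩ := h2
    refine ⟨d1 * d2, MvPolynomial.C d2 * k1 + MvPolynomial.C d1 * k2, mul_ne_zero hd1 hd2, ?_⟩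
    rw [map_add, map_mul, map_mul, e1, e2, MvPolynomial.map_C, MvPolynomial.map_C, map_mul,
      MvPolynomial.C_mul]
    ring
  | mul_X g1 i h1 =>
    obtain ⟨d1, k1, hd1, e1⟩ := h1
    refine ⟨d1, k1 * MvPolynomial.X i, hd1, ?_⟩
    rw [map_mul, e1, MvPolynomial.map_X]
    ring

theorem clearPoly {n : ℕ} (g : Polynomial (MvPolynomial (Fin n) L)) :
    ∃ (d : R) (g' : Polynomial (MvPolynomial (Fin n) R)), d ≠ 0 ∧
      g'.map (MvPolynomial.map (algebraMap R L)) =
        Polynomial.C (MvPolynomial.C (algebraMap R L d)) * g := by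
  induction g using Polynomial.induction_on' with
  | add g1 g2 h1 h2 =>
    obtain ⟨d1, k1, hd1, e1⟩ := h1
    obtain ⟨d2, k2, hd2, e2⟩ := h2
    refine ⟨d1 * d2, Polynomial.C (MvPolynomial.C d2) * k1 + Polynomial.C (MvPolynomial.C d1) * k2,
      mul_ne_zero hd1 hd2, ?_⟩
    rw [Polynomial.map_add, Polynomial.map_mul, Polynomial.map_mul, e1, e2, Polynomial.map_C,
      Polynomial.map_C, MvPolynomial.map_C, MvPolynomial.map_C, map_mul, MvPolynomial.C_mul,
      Polynomial.C_mul]
    ring
  | monomial i a =>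
    obtain ⟨d, k, hd, e⟩ := clearMv (R := R) a
    refine ⟨d, Polynomial.monomial i k, hd, ?_⟩
    rw [Polynomial.map_monomial, e, Polynomial.C_mul_monomial]

theorem map_inj {n : ℕ} : Function.Injective (Polynomial.map
    (MvPolynomial.map (σ := Fin n) (algebraMap R L))) :=
  Polynomial.map_injective _ (MvPolynomial.map_injective _ (IsFractionRing.injective R L))

open Classical in
/-- **Bezout over `R`** for a tuple which is coprime over `L` -/
theorem rel_bezout {n : ℕ} (T : Finset (Polynomial (MvPolynomial (Fin n) R)))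
    (hT : Cop (T.image (Polynomial.map (MvPolynomial.map (algebraMap R L))))) :
    ∃ (h : Polynomial (MvPolynomial (Fin n) R) → Polynomial (MvPolynomial (Fin n) R))
      (ρ : MvPolynomial (Fin n) R), ρ ≠ 0 ∧ ∑ f ∈ T, h f * f = Polynomial.C ρ := by
  obtain ⟨h, ρ, hρ, hs⟩ := cop_bezout _ hT
  rw [Finset.sum_image fun x _ y _ hxy => map_inj hxy] at hs
  choose d g hd hg using fun f : Polynomial (MvPolynomial (Fin n) R) =>
    clearPoly (R := R) (h (f.map (MvPolynomial.map (algebraMap R L))))
  obtain ⟨d0, ρ', hd0, hρ'⟩ := clearMv (R := R) ρ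
  refine ⟨fun f => Polynomial.C (MvPolynomial.C (d0 * ∏ x ∈ T.erase f, d x)) * g f,
    MvPolynomial.C (∏ x ∈ T, d x) * ρ', ?_, ?_⟩
  · refine mul_ne_zero ?_ ?_
    · rw [Ne, MvPolynomial.C_eq_zero]
      exact Finset.prod_ne_zero_iff.2 fun x _ => hd x
    · intro h0
      rw [h0, map_zero] at hρ'
      rcases mul_eq_zero.1 hρ'.symm with h1 | h1
      · rw [MvPolynomial.C_eq_zero, FaithfulSMul.algebraMap_eq_zero_iff] at h1
        exact hd0 h1
      · exact hρ h1
  · apply map_inj (L := L)
    rw [Polynomial.map_sum, Polynomial.map_C, map_mul, hρ', MvPolynomial.map_C]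
    have h2 : ∀ f ∈ T, Polynomial.map (MvPolynomial.map (algebraMap R L))
        (Polynomial.C (MvPolynomial.C (d0 * ∏ x ∈ T.erase f, d x)) * g f * f) =
        Polynomial.C (MvPolynomial.C (algebraMap R L (d0 * ∏ x ∈ T, d x))) *
        (h (f.map (MvPolynomial.map (algebraMap R L))) *
          f.map (MvPolynomial.map (algebraMap R L))) := by
      intro f hf
      rw [Polynomial.map_mul, Polynomial.map_mul, hg, Polynomial.map_C, MvPolynomial.map_C,
        ← Finset.mul_prod_erase T d hf]
      simp only [map_mul, Polynomial.C_mul, MvPolynomial.C_mul]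
      ring
    rw [Finset.sum_congr rfl h2, ← Finset.mul_sum, hs, ← Polynomial.C_mul]
    simp only [map_mul, MvPolynomial.C_mul]
    ring_nf

end Pool.Agent.Helper83.Rel
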