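import Pool.Agent.Helper83.Rel.Defs2
import Pool.Agent.Helper83.Rel.Clear
import Pool.Agent.Helper69.CB.TriE

/-!
# T-REL, version 2: specialisation of coprime tuples and of polynomials of type F; factorization
-/

set_option autoImplicit false

namespace Pool.Agent.Helper83.Rel

open NumberField Pool.Agent.Helper4.CB Pool.Agent.Helper69.CB Pool.Agent.Helper49.CB MvPolynomial

/-- the square of `finSuccEquiv` and a ring homomorphism -/
theorem finSucc_map' {R S : Type} [CommRing R] [CommRing S] (φ : R →+* S) {n : ℕ}
    (f : MvPolynomial (Fin (n + 1)) R) :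
    finSuccEquiv S n (map φ f) = (finSuccEquiv R n f).map (map φ) := by
  ext i m
  rw [finSuccEquiv_coeff_coeff, coeff_map, Polynomial.coeff_map, coeff_map,
    finSuccEquiv_coeff_coeff]

/-- **S1.** coprime tuples over the fraction field specialise to coprime tuples outside a divisor -/
theorem cop_spec {K : Type} [Field K] {R : Type} [CommRing R] [IsDomain R] [Algebra K R]
    (L : Type) [Field L] [Algebra R L] [IsFractionRing R L] (n : ℕ) :
    ∀ (T : Finset (MvPolynomial (Fin n) R)),
      (∀ q : MvPolynomial (Fin n) L, Irreducible q → ∃ f ∈ T, ¬ q ∣ map (algebraMap R L) f) →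
      ∃ H : R, H ≠ 0 ∧ ∀ φ : R →ₐ[K] K, φ H ≠ 0 → ∀ q : MvPolynomial (Fin n) K, Irreducible q →
        ∃ f ∈ T, ¬ q ∣ map (φ : R →+* K) f := by
  classical
  have halg : Function.Injective (algebraMap R L) := IsFractionRing.injective R L
  induction n with
  | zero =>
    intro T _
    exact ⟨1, one_ne_zero, fun φ _ q hq => absurd hq (not_irreducible_fin0 q)⟩
  | succ n ih =>
    intro T hT
    set e := finSuccEquiv R n with he
    let T1 : Finset (Polynomial (MvPolynomial (Fin n) R)) := T.image e
    have hcop : Cop (T1.image (Polynomial.map (map (algebraMap R L)))) := by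
      intro q hq
      have h1 : Irreducible ((finSuccEquiv L n).symm q) :=
        (MulEquiv.irreducible_iff (finSuccEquiv L n).symm).2 hq
      obtain ⟨f, hf, hfq⟩ := hT _ h1
      refine ⟨_, Finset.mem_image_of_mem _ (Finset.mem_image_of_mem _ hf), fun hd => hfq ?_⟩
      rw [he, ← finSucc_map' (algebraMap R L)] at hd
      have h2 := map_dvd (finSuccEquiv L n).symm hd
      rwa [AlgEquiv.symm_apply_apply] at h2
    obtain ⟨h, ρ, hρ0, hρ⟩ := rel_bezout (L := L) T1 hcop
    -- the coefficients
    obtain ⟨H1, hH1, hφ1⟩ := ih (T1.biUnion Polynomial.coeffs) (by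
      intro q hq
      obtain ⟨f, hf, c, hc, hcq⟩ := cop_coeffs' hcop q hq
      obtain ⟨g, hg, rfl⟩ := Finset.mem_image.1 hf
      rw [Polynomial.mem_coeffs_iff] at hc
      obtain ⟨i, hi, rfl⟩ := hc
      rw [Polynomial.mem_support_iff, Polynomial.coeff_map] at hi
      refine ⟨g.coeff i, Finset.mem_biUnion.2 ⟨g, hg, Polynomial.coeff_mem_coeffs ?_⟩, ?_⟩
      · intro h0
        rw [h0, map_zero] at hi
        exact hi rfl
      · rwa [Polynomial.coeff_map] at hcq)
    obtain ⟨m, hm⟩ := ne_zero_iff.1 hρ0
    refine ⟨H1 * coeff m ρ, mul_ne_zero hH1 hm, fun φ hφ q hq => ?_⟩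
    rw [map_mul] at hφ
    have hφ2 := hφ1 φ (left_ne_zero_of_mul hφ)
    have hρφ : map (φ : R →+* K) ρ ≠ 0 := by
      rw [ne_zero_iff]
      exact ⟨m, by rw [coeff_map]; exact right_ne_zero_of_mul hφ⟩
    by_contra hcon
    push Not at hcon
    set Q := finSuccEquiv K n q with hQ
    have hQirr : Irreducible Q := (MulEquiv.irreducible_iff (finSuccEquiv K n)).2 hq
    have hdvd : ∀ f ∈ T, Q ∣ (e f).map (map (φ : R →+* K)) := by
      intro f hf
      rw [he, ← finSucc_map']
      exact map_dvd (finSuccEquiv K n) (hcon f hf)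
    have hQρ : Q ∣ Polynomial.C (map (φ : R →+* K) ρ) := by
      have h2 := congrArg (Polynomial.map (map (φ : R →+* K))) hρ
      rw [Polynomial.map_C, Polynomial.map_sum] at h2
      rw [← h2]
      refine Finset.dvd_sum fun g hg => ?_
      obtain ⟨f, hf, rfl⟩ := Finset.mem_image.1 hg
      rw [Polynomial.map_mul]
      exact (hdvd f hf).mul_left _
    have hQ0 : Q.natDegree = 0 := by
      have h3 := Polynomial.natDegree_le_of_dvd hQρ (by rwa [Ne, Polynomial.C_eq_zero])
      rw [Polynomial.natDegree_C] at h3
      omega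
    obtain ⟨c0, hc0⟩ : ∃ c0, Q = Polynomial.C c0 := ⟨_, Polynomial.eq_C_of_natDegree_eq_zero hQ0⟩
    rw [hc0] at hQirr hdvd
    obtain ⟨c, hc, hcq⟩ := hφ2 c0 (irreducible_of_C hQirr)
    obtain ⟨g, hg, hc⟩ := Finset.mem_biUnion.1 hc
    obtain ⟨f, hf, rfl⟩ := Finset.mem_image.1 hg
    rw [Polynomial.mem_coeffs_iff] at hc
    obtain ⟨i, _, rfl⟩ := hc
    apply hcq
    have h4 := (Polynomial.C_dvd_iff_dvd_coeff _ _).1 (hdvd f hf) i
    rwa [Polynomial.coeff_map] at h4

/-- irreducible polynomials with the degree condition are of type F -/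
theorem tf_of_irreducible {F : Type} [Field F] {dm : ℕ} (n : ℕ) :
    ∀ P : MvPolynomial (Fin n) F, Irreducible P → TriDeg dm P → TF dm n P := by
  induction n with
  | zero => exact fun P hP _ => absurd hP (not_irreducible_fin0 P)
  | succ n ih =>
    intro P hP hd
    have hirr : Irreducible (finSuccEquiv F n P) := (MulEquiv.irreducible_iff _).2 hP
    by_cases h0 : (finSuccEquiv F n P).natDegree = 0
    · right
      refine ⟨h0, ih _ ?_ (triDeg_coeff hd h0)⟩
      have h1 := hirr
      rw [Polynomial.eq_C_of_natDegree_eq_zero h0] at h1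
      exact irreducible_of_C h1
    · left
      refine ⟨?_, cop_coeffs_of_irreducible hirr h0⟩
      rw [natDegree_finSuccEquiv]
      exact hd 0 fun j hj => absurd hj (Fin.not_lt_zero j)

/-- type F is stable under scaling -/
theorem TF.smul {F : Type} [Field F] {dm : ℕ} {c : F} (hc : c ≠ 0) (n : ℕ) :
    ∀ P : MvPolynomial (Fin n) F, TF dm n P → TF dm n (C c * P) := by
  induction n with
  | zero => exact fun P hP => hP
  | succ n ih =>
    intro P hP
    have he : finSuccEquiv F n (C c * P) = Polynomial.C (C c) * finSuccEquiv F n P := by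
      rw [map_mul]
      congr 1
      ext i m
      rw [finSuccEquiv_coeff_coeff, coeff_C, Polynomial.coeff_C]
      by_cases hi : i = 0
      · rw [if_pos hi, coeff_C, hi]
        by_cases hm : 0 = m
        · rw [if_pos hm, ← hm, if_pos]
          ext j
          induction j using Fin.cases with
          | zero => rw [Finsupp.cons_zero]; rfl
          | succ j => rw [Finsupp.cons_succ]; rfl
        · rw [if_neg hm, if_neg]
          intro h0
          apply hm
          have h1 := congrArg Finsupp.tail h0
          rw [Finsupp.tail_cons] at h1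
          rw [← h1]
          ext j
          rw [Finsupp.tail_apply]
          rfl
      · rw [if_neg hi, coeff_zero, if_neg]
        intro h0
        apply hi
        have h1 := DFunLike.congr_fun h0 0
        rw [Finsupp.cons_zero] at h1
        exact h1.symm
    have hc0 : (C c : MvPolynomial (Fin n) F) ≠ 0 := by rwa [Ne, C_eq_zero]
    have hu : IsUnit (C c : MvPolynomial (Fin n) F) := (isUnit_iff_ne_zero.2 hc).map C
    have hd : (finSuccEquiv F n (C c * P)).natDegree = (finSuccEquiv F n P).natDegree := by
      rw [he, Polynomial.natDegree_C_mul hc0]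
    rcases hP with ⟨h1, h2⟩ | ⟨h1, h2⟩
    · left
      refine ⟨by rw [hd]; exact h1, fun q hq => ?_⟩
      obtain ⟨g, hg, hgq⟩ := h2 q hq
      rw [Polynomial.mem_coeffs_iff] at hg
      obtain ⟨i, hi, rfl⟩ := hg
      refine ⟨C c * (finSuccEquiv F n P).coeff i, ?_, ?_⟩
      · rw [← Polynomial.coeff_C_mul, ← he]
        apply Polynomial.coeff_mem_coeffs
        rw [he, Polynomial.coeff_C_mul]
        exact mul_ne_zero hc0 (Polynomial.mem_support_iff.1 hi)
      · rwa [hu.dvd_mul_left]
    · right
      refine ⟨by rw [hd]; exact h1, ?_⟩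
      rw [he, Polynomial.coeff_C_mul]
      exact ih _ h2

/-- **S2.** type F specialises -/
theorem tf_spec {K : Type} [Field K] {R : Type} [CommRing R] [IsDomain R] [Algebra K R]
    (L : Type) [Field L] [Algebra R L] [IsFractionRing R L] {dm : ℕ} (n : ℕ) :
    ∀ P : MvPolynomial (Fin n) R, TF dm n (map (algebraMap R L) P) →
      ∃ H : R, H ≠ 0 ∧ ∀ φ : R →ₐ[K] K, φ H ≠ 0 → TF dm n (map (φ : R →+* K) P) := by
  have halg : Function.Injective (algebraMap R L) := IsFractionRing.injective R L
  induction n with
  | zero => exact fun P hP => absurd hP (by simp [TF])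
  | succ n ih =>
    intro P hP
    set e := finSuccEquiv R n with he
    have hd : ((e P).map (map (algebraMap R L))).natDegree = (e P).natDegree :=
      Polynomial.natDegree_map_eq_of_injective (map_injective _ halg) _
    rcases hP with ⟨h1, h2⟩ | ⟨h1, h2⟩
    · rw [finSucc_map'] at h1 h2
      obtain ⟨H, hH, hφ⟩ := cop_spec (K := K) L n (e P).coeffs (by
        intro q hq
        obtain ⟨c, hc, hcq⟩ := h2 q hq
        rw [Polynomial.mem_coeffs_iff] at hc
        obtain ⟨i, hi, rfl⟩ := hc
        rw [Polynomial.mem_support_iff, Polynomial.coeff_map] at hi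
        refine ⟨(e P).coeff i, Polynomial.coeff_mem_coeffs ?_, ?_⟩
        · intro h0
          rw [he] at h0
          rw [h0, map_zero] at hi
          exact hi rfl
        · rwa [Polynomial.coeff_map] at hcq)
      refine ⟨H, hH, fun φ hφH => Or.inl ⟨?_, fun q hq => ?_⟩⟩
      · rw [finSucc_map']
        exact Polynomial.natDegree_map_le.trans (hd ▸ h1)
      · obtain ⟨c, hc, hcq⟩ := hφ φ hφH q hq
        rw [Polynomial.mem_coeffs_iff] at hc
        obtain ⟨i, hi, rfl⟩ := hc
        refine ⟨map (φ : R →+* K) ((e P).coeff i), ?_, hcq⟩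
        rw [finSucc_map', ← Polynomial.coeff_map]
        apply Polynomial.coeff_mem_coeffs
        intro h0
        rw [Polynomial.coeff_map] at h0
        rw [h0] at hcq
        exact hcq (dvd_zero q)
    · rw [finSucc_map'] at h1 h2
      rw [Polynomial.coeff_map] at h2
      obtain ⟨H, hH, hφ⟩ := ih _ h2
      refine ⟨H, hH, fun φ hφH => Or.inr ⟨?_, ?_⟩⟩
      · rw [finSucc_map']
        have h3 : (e P).natDegree = 0 := by rw [← hd]; exact h1
        have h4 : ((e P).map (map (φ : R →+* K))).natDegree ≤ (e P).natDegree :=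
          Polynomial.natDegree_map_le
        exact Nat.le_zero.1 (h3 ▸ h4)
      · rw [finSucc_map', Polynomial.coeff_map]
        exact hφ φ hφH

/-- factorization over the fraction field, with denominators cleared -/
theorem fact_clear {R : Type} [CommRing R] [IsDomain R] (L : Type) [Field L] [Algebra R L]
    [IsFractionRing R L] {n : ℕ} (Q : MvPolynomial (Fin n) L → MvPolynomial (Fin n) R)
    (d : MvPolynomial (Fin n) L → R) (hd : ∀ g, d g ≠ 0)
    (hQ : ∀ g, map (algebraMap R L) (Q g) = C (algebraMap R L (d g)) * g)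
    (a : MvPolynomial (Fin n) R) (ha : a ≠ 0) :
    ∃ x y : R, x ≠ 0 ∧ y ≠ 0 ∧ C y * a =
      C x * ((UniqueFactorizationMonoid.factors (map (algebraMap R L) a)).map Q).prod := by
  have halg : Function.Injective (algebraMap R L) := IsFractionRing.injective R L
  have hinj : Function.Injective (map (σ := Fin n) (algebraMap R L)) := map_injective _ halg
  have ha' : map (algebraMap R L) a ≠ 0 := by
    rw [Ne, map_eq_zero_iff _ hinj]
    exact ha
  obtain ⟨u, hu⟩ := UniqueFactorizationMonoid.factors_prod ha'
  obtain ⟨c, hc0, hc⟩ : ∃ c : L, c ≠ 0 ∧ (u : MvPolynomial (Fin n) L) = C c := by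
    obtain ⟨c, hc⟩ := MvPolynomial.isUnit_iff_eq_C_of_isReduced.1 u.isUnit
    exact ⟨c, hc.1.ne_zero, hc.2⟩
  obtain ⟨x, y, hy, hxy⟩ := IsFractionRing.div_surjective (A := R) c
  have hy0 : y ≠ 0 := nonZeroDivisors.ne_zero hy
  have hyL : algebraMap R L y ≠ 0 := by
    rw [Ne, FaithfulSMul.algebraMap_eq_zero_iff]
    exact hy0
  have hx0 : x ≠ 0 := by
    rintro rfl
    rw [map_zero, zero_div] at hxy
    exact hc0 hxy.symm
  set M := UniqueFactorizationMonoid.factors (map (algebraMap R L) a) with hM
  refine ⟨x, y * (M.map d).prod, hx0, mul_ne_zero hy0 ?_, ?_⟩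
  · rw [Ne, Multiset.prod_eq_zero_iff, Multiset.mem_map]
    rintro ⟨g, _, hg⟩
    exact hd g hg
  · apply hinj
    have h1 : map (algebraMap R L) (M.map Q).prod =
        C (algebraMap R L (M.map d).prod) * M.prod := by
      have h2 : ∀ M : Multiset (MvPolynomial (Fin n) L),
          map (algebraMap R L) (M.map Q).prod =
            C (algebraMap R L (M.map d).prod) * M.prod := by
        intro M
        induction M using Multiset.induction_on with
        | empty => simp
        | cons g M ih =>
          rw [Multiset.map_cons, Multiset.prod_cons, map_mul, ih, hQ, Multiset.map_cons,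
            Multiset.prod_cons, Multiset.prod_cons, map_mul, C_mul]
          ring
      exact h2 M
    have e1 : map (algebraMap R L) (C (y * (M.map d).prod) * a) =
        C (algebraMap R L y) * C (algebraMap R L (M.map d).prod) * map (algebraMap R L) a := by
      rw [map_mul, map_C, map_mul (algebraMap R L), C_mul]
    have e2 : map (algebraMap R L) (C x * (M.map Q).prod) =
        C (algebraMap R L x) * (C (algebraMap R L (M.map d).prod) * M.prod) := by
      rw [map_mul, map_C, h1]
    rw [e1, e2, ← hu, hc, ← hxy]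
    have h3 : (C (algebraMap R L y) : MvPolynomial (Fin n) L) *
        C (algebraMap R L x / algebraMap R L y) = C (algebraMap R L x) := by
      rw [← C_mul]
      congr 1
      field_simp
    rw [← h3]
    ring

end Pool.Agent.Helper83.Rel
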