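import Pool.Agent.Helper83.Rel.Defs
import Pool.Agent.Helper83.Rel.Clear
import Pool.Agent.Helper69.CB.TriE

/-!
# T-REL: the induction on the number of variables over a base with dense points
-/

set_option autoImplicit false

namespace Pool.Agent.Helper83.Rel

open NumberField Pool.Agent.Helper4.CB MvPolynomial Pool.Agent.Helper49.CB
open Pool.Agent.Helper69.CB

variable {K : Type} [Field K] [NumberField K] {R : Type} [CommRing R] [Algebra K R]

/-- two sets of elements which differ at most by `0` -/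
theorem UnitAt.congr {J : ℕ} {Φ : (R →ₐ[K] K) → Prop} {U U' : Set R} (h : UnitAt J Φ U)
    (h1 : ∀ c ∈ U', c ∈ U) (h2 : ∀ c ∈ U, c ≠ 0 → c ∈ U') : UnitAt J Φ U' := by
  intro φ hφ p hp
  obtain ⟨h3, c, hc, hc1⟩ := h φ hφ p hp
  refine ⟨fun c hc => h3 c (h1 c hc), c, h2 c hc ?_, hc1⟩
  rintro rfl
  rw [map_zero, map_zero] at hc1
  exact zero_ne_one hc1

theorem aevalTower_eq_eval {n : ℕ} (φ : R →ₐ[K] K) (t : Fin n → K) (f : MvPolynomial (Fin n) R) :
    aevalTower φ t f = eval t (map (φ : R →+* K) f) := by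
  induction f using MvPolynomial.induction_on with
  | C a => rw [aevalTower_C, map_C, eval_C]; rfl
  | add f g hf hg => rw [map_add, map_add, map_add, hf, hg]
  | mul_X f i hf => rw [map_mul, map_mul, map_mul, hf, aevalTower_X, map_X, eval_X]

/-- the value at a point with a new first coordinate -/
theorem aevalTower_cons {n : ℕ} (φ : R →ₐ[K] K) (t : Fin n → K) (x : K)
    (f : MvPolynomial (Fin (n + 1)) R) :
    aevalTower φ (Fin.cons x t : Fin (n + 1) → K) f =
      ((finSuccEquiv R n f).map ((aevalTower φ t : MvPolynomial (Fin n) R →ₐ[K] K) :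
        MvPolynomial (Fin n) R →+* K)).eval x := by
  induction f using MvPolynomial.induction_on with
  | C a =>
    rw [aevalTower_C, finSuccEquiv_apply, eval₂Hom_C]
    simp
  | add f g hf hg => rw [map_add, map_add, Polynomial.map_add, Polynomial.eval_add, hf, hg]
  | mul_X f i hf =>
    rw [map_mul, map_mul, Polynomial.map_mul, Polynomial.eval_mul, hf, aevalTower_X]
    congr 1
    induction i using Fin.cases with
    | zero => rw [Fin.cons_zero, finSuccEquiv_X_zero, Polynomial.map_X, Polynomial.eval_X]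
    | succ i =>
      rw [Fin.cons_succ, finSuccEquiv_X_succ, Polynomial.map_C, Polynomial.eval_C]
      exact (aevalTower_X φ t i).symm

/-- integral values -/
theorem vl_tower_le {n : ℕ} (p : Pl K) (φ : R →ₐ[K] K) {t : Fin n → K}
    (ht : ∀ j, vl p (t j) ≤ 1) (f : MvPolynomial (Fin n) R)
    (hf : ∀ m, vl p (φ (f.coeff m)) ≤ 1) : vl p (aevalTower φ t f) ≤ 1 := by
  rw [aevalTower_eq_eval]
  refine vl_eval_le (vl p) _ (fun m => ?_) ht
  rw [coeff_map]
  exact hf m

variable [IsDomain R]

/-- **R6.** -/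
theorem triRel (L : Type) [Field L] [Algebra R L] [IsFractionRing R L] {J dm A Dg : ℕ}
    (hD : StepD K J dm A Dg) (Φ : (R →ₐ[K] K) → Prop)
    (hΦ : ∀ f : R, f ≠ 0 → ∃ φ, Φ φ ∧ φ f ≠ 0) (n : ℕ) :
    ∀ (ι κ : Type) [Fintype ι] [Fintype κ] (F : ι → MvPolynomial (Fin n) R)
      (T : κ → Finset (MvPolynomial (Fin n) R)) (H : MvPolynomial (Fin n) R),
      Fintype.card ι + Fintype.card κ ≤ A →
      (∀ i, Irreducible (map (algebraMap R L) (F i)) ∧ TriDeg dm (map (algebraMap R L) (F i))) →
      (∀ k, ∀ q : MvPolynomial (Fin n) L, Irreducible q →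
        ∃ f ∈ T k, ¬ q ∣ map (algebraMap R L) f) →
      (∀ i j, (F i).degreeOf j ≤ Dg) → (∀ k, ∀ f ∈ T k, ∀ j, f.degreeOf j ≤ Dg) →
      (∀ i, UnitAt J Φ (Coefs {F i})) →
      (∀ k, UnitAt J Φ (Coefs (T k : Set (MvPolynomial (Fin n) R)))) →
      H ≠ 0 →
      ∃ (φ : R →ₐ[K] K) (t : Fin n → K), Φ φ ∧ aevalTower φ t H ≠ 0 ∧
        ∀ p : Pl K, Bad J p → (∀ j, vl p (t j) ≤ 1) ∧
        (∀ i, vl p (aevalTower φ t (F i)) = 1) ∧
        ∀ k, ∃ f ∈ T k, vl p (aevalTower φ t f) = 1 := by
  classical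
  have halg : Function.Injective (algebraMap R L) := IsFractionRing.injective R L
  induction n with
  | zero =>
    intro ι κ _ _ F T H _ hF hT _ _ _ hcT hH
    have hC : ∀ f : MvPolynomial (Fin 0) R, f = C (coeff 0 f) := fun f => eq_C_of_isEmpty f
    have hH0 : coeff 0 H ≠ 0 := by
      intro h0
      apply hH
      rw [hC H, h0, C_0]
    obtain ⟨φ, hφ, hφH⟩ := hΦ _ hH0
    refine ⟨φ, fun i => i.elim0, hφ, ?_, ?_⟩
    · rw [hC H, aevalTower_C]
      exact hφH
    · intro p hp
      refine ⟨fun j => j.elim0, fun i => absurd (hF i).1 (not_irreducible_fin0 _), fun k => ?_⟩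
      obtain ⟨_, c, ⟨f, hf, m, rfl⟩, hc⟩ := hcT k φ hφ p hp
      refine ⟨f, hf, ?_⟩
      have hm : m = 0 := Subsingleton.elim _ _
      rw [hm] at hc
      rw [hC f, aevalTower_C]
      exact hc
  | succ n ih =>
    intro ι κ _ _ F T H hA hF hT hdF hdT hcF hcT hH
    set e := finSuccEquiv R n with he
    set ψ : Polynomial (MvPolynomial (Fin n) R) → Polynomial (MvPolynomial (Fin n) L) :=
      Polynomial.map (map (algebraMap R L)) with hψ
    have hsq : ∀ f, finSuccEquiv L n (map (algebraMap R L) f) = ψ (e f) := fun f => finSucc_map f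
    have hψinj : Function.Injective ψ := map_inj
    have hψd : ∀ f, (ψ f).natDegree = f.natDegree := fun f =>
      Polynomial.natDegree_map_eq_of_injective (map_injective _ halg) f
    have hψc : ∀ f i, (ψ f).coeff i = map (algebraMap R L) (f.coeff i) := fun f i =>
      Polynomial.coeff_map _ _
    have hirr : ∀ i, Irreducible (ψ (e (F i))) := fun i => by
      rw [← hsq]
      exact (MulEquiv.irreducible_iff (finSuccEquiv L n)).2 (hF i).1
    let T1 : κ → Finset (Polynomial (MvPolynomial (Fin n) R)) := fun k => (T k).image e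
    have hcop : ∀ k, Cop ((T1 k).image ψ) := by
      intro k q hq
      have h1 : Irreducible ((finSuccEquiv L n).symm q) :=
        (MulEquiv.irreducible_iff (finSuccEquiv L n).symm).2 hq
      obtain ⟨f, hf, hfq⟩ := hT k _ h1
      refine ⟨ψ (e f), Finset.mem_image_of_mem _ (Finset.mem_image_of_mem _ hf), fun hd => hfq ?_⟩
      rw [← hsq] at hd
      have h2 := map_dvd (finSuccEquiv L n).symm hd
      rwa [AlgEquiv.symm_apply_apply] at h2
    choose hh ρ hρ0 hρ using fun k => rel_bezout (L := L) (T1 k) (hcop k)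
    have heH : e H ≠ 0 := by
      intro h0
      apply hH
      have := congrArg e.symm h0
      rwa [AlgEquiv.symm_apply_apply, map_zero] at this
    have hmem : ∀ (f : MvPolynomial (Fin (n + 1)) R) (c : MvPolynomial (Fin n) R),
        c ∈ (e f).coeffs → ∃ i, c = (e f).coeff i := by
      intro f c hc
      rw [Polynomial.mem_coeffs_iff] at hc
      obtain ⟨i, _, hi⟩ := hc
      exact ⟨i, hi⟩
    have hmem1 : ∀ (k : κ) (c : MvPolynomial (Fin n) R),
        c ∈ (T1 k).biUnion Polynomial.coeffs → ∃ f ∈ T k, ∃ i, c = (e f).coeff i := by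
      intro k c hc
      rw [Finset.mem_biUnion] at hc
      obtain ⟨g, hg, hc⟩ := hc
      obtain ⟨f, hf, rfl⟩ := Finset.mem_image.1 hg
      exact ⟨f, hf, hmem f c hc⟩
    -- coefficients of coefficients
    have hcc : ∀ (f : MvPolynomial (Fin (n + 1)) R) (i : ℕ) (m : Fin n →₀ ℕ),
        coeff m ((e f).coeff i) = coeff (m.cons i) f := fun f i m => finSuccEquiv_coeff_coeff m f i
    have hcc' : ∀ (f : MvPolynomial (Fin (n + 1)) R) (m : Fin (n + 1) →₀ ℕ),
        coeff m f = coeff m.tail ((e f).coeff (m 0)) := by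
      intro f m
      rw [hcc, Finsupp.cons_tail]
    have hnz : ∀ (f : MvPolynomial (Fin (n + 1)) R) (m : Fin (n + 1) →₀ ℕ), coeff m f ≠ 0 →
        (e f).coeff (m 0) ≠ 0 := by
      intro f m hm h0
      rw [hcc', h0, coeff_zero] at hm
      exact hm rfl
    -- images of coefficients
    have hpre : ∀ (f : MvPolynomial (Fin (n + 1)) R) (c : MvPolynomial (Fin n) L),
        c ∈ (ψ (e f)).coeffs → ∃ c' ∈ (e f).coeffs, c = map (algebraMap R L) c' := by
      intro f c hc
      rw [Polynomial.mem_coeffs_iff] at hc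
      obtain ⟨i, hi, rfl⟩ := hc
      refine ⟨(e f).coeff i, ?_, hψc _ _⟩
      apply Polynomial.coeff_mem_coeffs
      intro h0
      rw [Polynomial.mem_support_iff, hψc, h0, map_zero] at hi
      exact hi rfl
    obtain ⟨φ, t', hφ, htH, htp⟩ : ∃ (φ : R →ₐ[K] K) (t' : Fin n → K), Φ φ ∧
        aevalTower φ t' ((e H).leadingCoeff * ∏ k, ρ k) ≠ 0 ∧ ∀ p : Pl K, Bad J p →
        (∀ j, vl p (t' j) ≤ 1) ∧
        (∀ i : {i : ι // (e (F i)).natDegree = 0},
          vl p (aevalTower φ t' ((e (F i.1)).coeff 0)) = 1) ∧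
        ∀ k : {i : ι // ¬ (e (F i)).natDegree = 0} ⊕ κ, ∃ f ∈ (Sum.elim
          (fun i : {i : ι // ¬ (e (F i)).natDegree = 0} => (e (F i.1)).coeffs)
          (fun k => (T1 k).biUnion Polynomial.coeffs) k), vl p (aevalTower φ t' f) = 1 := by
      refine ih {i : ι // (e (F i)).natDegree = 0}
        ({i : ι // ¬ (e (F i)).natDegree = 0} ⊕ κ) (fun i => (e (F i.1)).coeff 0)
        (Sum.elim (fun i => (e (F i.1)).coeffs) (fun k => (T1 k).biUnion Polynomial.coeffs))
        ((e H).leadingCoeff * ∏ k, ρ k) ?_ ?_ ?_ ?_ ?_ ?_ ?_ ?_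
      · -- cardinalities
        rw [Fintype.card_sum, ← add_assoc, ← Fintype.card_sum,
          Fintype.card_congr (Equiv.sumCompl (fun i : ι => (e (F i)).natDegree = 0))]
        exact hA
      · -- type I
        intro i
        have h0 : (ψ (e (F i.1))).natDegree = 0 := by rw [hψd]; exact i.2
        have h1 := hirr i.1
        rw [Polynomial.eq_C_of_natDegree_eq_zero h0, hψc] at h1
        refine ⟨irreducible_of_C h1, ?_⟩
        have h2 := triDeg_coeff (hF i.1).2 (by rw [hsq]; exact h0)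
        rwa [hsq, hψc] at h2
      · -- tuples
        rintro (i | k) q hq
        · have h0 : (ψ (e (F i.1))).natDegree ≠ 0 := by rw [hψd]; exact i.2
          obtain ⟨c, hc, hcq⟩ := cop_coeffs_of_irreducible (hirr i.1) h0 q hq
          obtain ⟨c', hc', rfl⟩ := hpre _ _ hc
          exact ⟨c', hc', hcq⟩
        · obtain ⟨f, hf, c, hc, hcq⟩ := cop_coeffs' (hcop k) q hq
          obtain ⟨g, hg, rfl⟩ := Finset.mem_image.1 hf
          obtain ⟨f', hf', rfl⟩ := Finset.mem_image.1 hg
          obtain ⟨c', hc', rfl⟩ := hpre _ _ hc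
          exact ⟨c', Finset.mem_biUnion.2 ⟨e f', hg, hc'⟩, hcq⟩
      · intro i j
        exact (degreeOf_coeff_finSuccEquiv _ j 0).trans (hdF i.1 j.succ)
      · rintro (i | k) f hf j
        · obtain ⟨m, rfl⟩ := hmem _ _ hf
          exact (degreeOf_coeff_finSuccEquiv _ j m).trans (hdF i.1 j.succ)
        · obtain ⟨g, hg, m, rfl⟩ := hmem1 _ _ hf
          exact (degreeOf_coeff_finSuccEquiv _ j m).trans (hdT k g hg j.succ)
      · intro i
        refine (hcF i.1).congr ?_ ?_
        · rintro c ⟨f, hf, m, rfl⟩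
          rw [Set.mem_singleton_iff] at hf
          subst hf
          exact ⟨F i.1, rfl, _, hcc _ _ _⟩
        · rintro c ⟨f, hf, m, rfl⟩ hc0
          rw [Set.mem_singleton_iff] at hf
          subst hf
          refine ⟨_, rfl, m.tail, ?_⟩
          have h1 : m 0 = 0 := by
            by_contra h2
            apply hnz _ _ hc0
            exact Polynomial.coeff_eq_zero_of_natDegree_lt (by rw [i.2]; omega)
          rw [hcc', h1]
      · rintro (i | k)
        · refine (hcF i.1).congr ?_ ?_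
          · rintro c ⟨f, hf, m, rfl⟩
            obtain ⟨l, rfl⟩ := hmem _ _ (Finset.mem_coe.1 hf)
            exact ⟨F i.1, rfl, _, hcc _ _ _⟩
          · rintro c ⟨f, hf, m, rfl⟩ hc0
            rw [Set.mem_singleton_iff] at hf
            subst hf
            exact ⟨_, Finset.mem_coe.2 (Polynomial.coeff_mem_coeffs (hnz _ _ hc0)), m.tail,
              hcc' _ _⟩
        · refine (hcT k).congr ?_ ?_
          · rintro c ⟨f, hf, m, rfl⟩
            obtain ⟨g, hg, l, rfl⟩ := hmem1 _ _ (Finset.mem_coe.1 hf)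
            exact ⟨g, hg, _, hcc _ _ _⟩
          · rintro c ⟨f, hf, m, rfl⟩ hc0
            exact ⟨_, Finset.mem_coe.2 (Finset.mem_biUnion.2 ⟨e f, Finset.mem_image_of_mem _
              (Finset.mem_coe.1 hf), Polynomial.coeff_mem_coeffs (hnz _ _ hc0)⟩), m.tail,
              hcc' _ _⟩
      · exact mul_ne_zero (Polynomial.leadingCoeff_ne_zero.2 heH)
          (Finset.prod_ne_zero_iff.2 fun k _ => hρ0 k)
    -- the last variable
    rw [map_mul, map_prod] at htH
    have htH1 : aevalTower φ t' (e H).leadingCoeff ≠ 0 := left_ne_zero_of_mul htH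
    have htρ : ∀ k, aevalTower φ t' (ρ k) ≠ 0 := fun k =>
      Finset.prod_ne_zero_iff.1 (right_ne_zero_of_mul htH) k (Finset.mem_univ k)
    let θ : MvPolynomial (Fin n) R →+* K :=
      ((aevalTower φ t' : MvPolynomial (Fin n) R →ₐ[K] K) : MvPolynomial (Fin n) R →+* K)
    have hθ : ∀ f, θ f = aevalTower φ t' f := fun f => rfl
    let χ : MvPolynomial (Fin (n + 1)) R → Polynomial K := fun f => (e f).map θ
    have hχH : χ H ≠ 0 := by
      intro h0
      apply htH1
      have h1 := congrArg (fun q => Polynomial.coeff q (e H).natDegree) h0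
      simp only [χ, Polynomial.coeff_map, Polynomial.coeff_zero] at h1
      exact h1
    have hint : ∀ p : Pl K, Bad J p → ∀ f : MvPolynomial (Fin (n + 1)) R,
        (∀ m, vl p (φ (coeff m f)) ≤ 1) → ∀ j, vl p ((χ f).coeff j) ≤ 1 := by
      intro p hp f hf j
      rw [Polynomial.coeff_map, hθ]
      refine vl_tower_le p φ (htp p hp).1 _ (fun m => ?_)
      rw [hcc]
      exact hf _
    have hintF : ∀ p : Pl K, Bad J p → ∀ i, ∀ m, vl p (φ (coeff m (F i))) ≤ 1 := fun p hp i m =>
      (hcF i φ hφ p hp).1 _ ⟨F i, rfl, m, rfl⟩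
    have hintT : ∀ p : Pl K, Bad J p → ∀ k, ∀ f ∈ T k, ∀ m, vl p (φ (coeff m f)) ≤ 1 :=
      fun p hp k f hf m => (hcT k φ hφ p hp).1 _ ⟨f, Finset.mem_coe.2 hf, m, rfl⟩
    obtain ⟨τ, hτ, hτp⟩ : ∃ τ : K, τ ∉ (χ H).roots.toFinset ∧ ∀ p : Pl K, Bad J p →
        vl p τ ≤ 1 ∧ (∀ i : {i : ι // ¬ (e (F i)).natDegree = 0},
          vl p ((χ (F i.1)).eval τ) = 1) ∧
        ∀ k, ∃ f ∈ (T k).image χ, vl p (f.eval τ) = 1 := by
      refine hD {i : ι // ¬ (e (F i)).natDegree = 0} κ
        (fun i => χ (F i.1)) (fun k => (T k).image χ) ?_ ?_ ?_ ?_ ?_ ?_ (χ H).roots.toFinset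
      · refine le_trans (Nat.add_le_add_right (Fintype.card_subtype_le _) _) hA
      · intro i
        have h1 : (χ (F i.1)).natDegree ≤ (e (F i.1)).natDegree := Polynomial.natDegree_map_le
        have h2 : (e (F i.1)).natDegree = (map (algebraMap R L) (F i.1)).degreeOf 0 := by
          rw [← natDegree_finSuccEquiv, hsq, hψd]
        refine ⟨h1.trans (h2.le.trans ((hF i.1).2 0 fun j hj => absurd hj (Fin.not_lt_zero j))),
          h1.trans ?_⟩
        have h3 : (e (F i.1)).natDegree = (F i.1).degreeOf 0 := natDegree_finSuccEquiv _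
        rw [h3]
        exact hdF i.1 0
      · intro k f hf
        obtain ⟨g, hg, rfl⟩ := Finset.mem_image.1 hf
        have h1 : (χ g).natDegree ≤ g.degreeOf 0 := by
          rw [← natDegree_finSuccEquiv]
          exact Polynomial.natDegree_map_le
        exact h1.trans (hdT k g hg 0)
      · intro p hp i
        refine ⟨hint p hp _ (hintF p hp i.1), ?_⟩
        obtain ⟨c, hc, hc1⟩ := (htp p hp).2.2 (Sum.inl i)
        obtain ⟨j, rfl⟩ := hmem _ _ hc
        refine ⟨j, ?_⟩
        rw [Polynomial.coeff_map]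
        exact hc1
      · intro p hp k
        constructor
        · intro f hf
          obtain ⟨g, hg, rfl⟩ := Finset.mem_image.1 hf
          exact hint p hp g (hintT p hp k g hg)
        · obtain ⟨c, hc, hc1⟩ := (htp p hp).2.2 (Sum.inr k)
          obtain ⟨g, hg, j, rfl⟩ := hmem1 _ _ hc
          refine ⟨χ g, Finset.mem_image_of_mem _ hg, j, ?_⟩
          rw [Polynomial.coeff_map]
          exact hc1
      · intro k
        rw [Ideal.eq_top_iff_one]
        have h1 : Polynomial.C (θ (ρ k)) ∈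
            Ideal.span (((T k).image χ : Finset (Polynomial K)) : Set (Polynomial K)) := by
          have h2 := congrArg (Polynomial.map θ) (hρ k)
          rw [Polynomial.map_C, Polynomial.map_sum] at h2
          rw [← h2]
          refine Ideal.sum_mem _ fun f hf => ?_
          obtain ⟨g, hg, rfl⟩ := Finset.mem_image.1 hf
          rw [Polynomial.map_mul]
          exact Ideal.mul_mem_left _ _ (Ideal.subset_span (Finset.mem_coe.2
            (Finset.mem_image_of_mem _ hg)))
        have h3 : (1 : Polynomial K) = Polynomial.C (θ (ρ k))⁻¹ * Polynomial.C (θ (ρ k)) := by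
          rw [← Polynomial.C_mul, inv_mul_cancel₀ (show θ (ρ k) ≠ 0 from htρ k), Polynomial.C_1]
        rw [h3]
        exact Ideal.mul_mem_left _ _ h1
    have hev : ∀ f, aevalTower φ (Fin.cons τ t' : Fin (n + 1) → K) f = (χ f).eval τ := fun f =>
      aevalTower_cons φ t' τ f
    refine ⟨φ, Fin.cons τ t', hφ, ?_, ?_⟩
    · rw [hev]
      intro h0
      apply hτ
      rw [Multiset.mem_toFinset, Polynomial.mem_roots hχH]
      exact h0
    · intro p hp
      obtain ⟨h1, h2, h3⟩ := htp p hp
      obtain ⟨h4, h5, h6⟩ := hτp p hp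
      refine ⟨?_, ?_, ?_⟩
      · intro j
        induction j using Fin.cases with
        | zero => rw [Fin.cons_zero]; exact h4
        | succ j => rw [Fin.cons_succ]; exact h1 j
      · intro i
        rw [hev]
        by_cases h0 : (e (F i)).natDegree = 0
        · have h7 : χ (F i) = Polynomial.C (θ ((e (F i)).coeff 0)) := by
            change (e (F i)).map θ = _
            conv_lhs => rw [Polynomial.eq_C_of_natDegree_eq_zero h0]
            rw [Polynomial.map_C]
          rw [h7, Polynomial.eval_C]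
          exact h2 ⟨i, h0⟩
        · exact h5 ⟨i, h0⟩
      · intro k
        obtain ⟨f, hf, hf1⟩ := h6 k
        obtain ⟨g, hg, rfl⟩ := Finset.mem_image.1 hf
        exact ⟨g, hg, by rw [hev]; exact hf1⟩

end Pool.Agent.Helper83.Rel
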