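import Pool.Agent.Helper83.Rel.Ind
import Pool.Agent.Helper83.Rel.Spec
import Pool.Agent.Helper83.Rel.Util
import Pool.Agent.Helper83.Rel.TriRel
import Pool.Agent.Helper43.Rel.R3R4
import Pool.Agent.Helper43.Rel.G1
import Pool.Agent.Helper34.Rel.Uc
import Pool.Agent.Helper49.Rel.Nrm
import Pool.Agent.Helper17.Rel.Scale

/-!
# T-REL, version 2: harmless points are dense, arbitrary `a`, `b` with coefficients without common
zero on `T`
-/

set_option autoImplicit false

namespace Pool.Agent.Helper83.Rel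

open NumberField Pool.Agent.Helper4.CB MvPolynomial Pool.Agent.Helper65.CB
open Pool.Agent.Helper69.CB Pool.Agent.Helper49.CB Filter

/-- the constant between two polynomials with unit content is a unit -/
theorem vl_of_uc {K : Type} [Field K] [NumberField K] {p : Pl K} {n : ℕ} {κ : K}
    {f : MvPolynomial (Fin n) K} (h1 : UC p (C κ * f)) (h2 : UC p f) : vl p κ = 1 := by
  obtain ⟨h3, m, hm⟩ := h1
  obtain ⟨h4, m', hm'⟩ := h2
  refine le_antisymm ?_ ?_
  · have h5 := h3 m'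
    rwa [coeff_C_mul, map_mul, hm', mul_one] at h5
  · rw [coeff_C_mul, map_mul] at hm
    rw [← hm]
    exact mul_le_of_le_one_right' (h4 m)

theorem UC.one {K : Type} [Field K] [NumberField K] {p : Pl K} {n : ℕ} :
    UC p (1 : MvPolynomial (Fin n) K) := by
  classical
  refine ⟨fun m => ?_, 0, by rw [coeff_zero_one, map_one]⟩
  rw [coeff_one]
  split
  · rw [map_one]
  · rw [map_zero]
    exact zero_le_one

theorem UC.multiset_prod {K : Type} [Field K] [NumberField K] {p : Pl K} {n : ℕ}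
    {ι : Type} (M : Multiset ι) (f : ι → MvPolynomial (Fin n) K) (h : ∀ i ∈ M, UC p (f i)) :
    UC p (M.map f).prod := by
  induction M using Multiset.induction_on with
  | empty => simpa using UC.one
  | cons i M ih =>
    rw [Multiset.map_cons, Multiset.prod_cons]
    exact Pool.Agent.Helper43.Rel.UC_mul (h i (Multiset.mem_cons_self i M)) (ih fun j hj => h j (Multiset.mem_cons_of_mem hj))

/-- the value of `a` at the point -/
theorem vl_eval_of_fact {K : Type} [Field K] [NumberField K] {p : Pl K} {n : ℕ}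
    {ι : Type} (M : Multiset ι) (Q : ι → MvPolynomial (Fin n) K) (l : ι → K)
    (hl : ∀ i ∈ M, l i ≠ 0) {a : MvPolynomial (Fin n) K} (ha : UC p a) {x y : K} (hy : y ≠ 0)
    (hxy : C y * a = C x * (M.map Q).prod) (hQ : ∀ i ∈ M, UC p (C (l i) * Q i))
    {t : Fin n → K} (ht : ∀ i ∈ M, vl p (eval t (C (l i) * Q i)) = 1) :
    vl p (eval t a) = 1 := by
  have h1 : (M.map Q).prod = C (M.map l).prod⁻¹ * (M.map fun i => C (l i) * Q i).prod := by
    clear hxy hQ ht
    induction M using Multiset.induction_on with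
    | empty => simp
    | cons i M ih =>
      have hi := hl i (Multiset.mem_cons_self i M)
      rw [Multiset.map_cons, Multiset.prod_cons, ih fun j hj => hl j (Multiset.mem_cons_of_mem hj),
        Multiset.map_cons, Multiset.prod_cons, Multiset.map_cons, Multiset.prod_cons, mul_inv,
        C_mul]
      have h2 : (C (l i)⁻¹ : MvPolynomial (Fin n) K) * C (l i) = 1 := by
        rw [← C_mul, inv_mul_cancel₀ hi, C_1]
      linear_combination (-(C (M.map l).prod⁻¹ : MvPolynomial (Fin n) K) *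
        (M.map fun i => C (l i) * Q i).prod * Q i) * h2
  have h2 : a = C (y⁻¹ * x * (M.map l).prod⁻¹) * (M.map fun i => C (l i) * Q i).prod := by
    have h3 : (C y⁻¹ : MvPolynomial (Fin n) K) * C y = 1 := by
      rw [← C_mul, inv_mul_cancel₀ hy, C_1]
    calc a = C y⁻¹ * C y * a := by rw [h3, one_mul]
      _ = C y⁻¹ * (C y * a) := by ring
      _ = _ := by
        rw [hxy, h1, C_mul, C_mul]
        ring
  have h3 : UC p (M.map fun i => C (l i) * Q i).prod := UC.multiset_prod M _ hQ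
  rw [h2] at ha
  have h4 := vl_of_uc ha h3
  rw [h2, map_mul, eval_C, map_mul, h4, one_mul]
  clear h1 h2 h3 ha h4 hQ hxy hl
  induction M using Multiset.induction_on with
  | empty => simp
  | cons i M ih =>
    rw [Multiset.map_cons, Multiset.prod_cons, map_mul, map_mul,
      ht i (Multiset.mem_cons_self i M), one_mul]
    exact ih fun j hj => ht j (Multiset.mem_cons_of_mem hj)

/-- **H2.** -/
theorem rel_harmless2 {K : Type} [Field K] [NumberField K] {R : Type} [CommRing R] [IsDomain R]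
    [Algebra K R] (L : Type) [Field L] [Algebra R L] [IsFractionRing R L] {dm : ℕ}
    (hE : ∀ A Dg J0 : ℕ, ∃ J, J0 ≤ J ∧ StepD K J dm A Dg)
    {N : ℕ} (τ : Fin N → R)
    (hgen : Algebra.adjoin K (Set.range τ) = ⊤)
    (hcone : ∀ φ : R →ₐ[K] K, ∃ ψ : R →ₐ[K] Polynomial K, ∀ l,
      ψ (τ l) = Polynomial.X * Polynomial.C (φ (τ l)))
    (hdense : ∀ f : R, f ≠ 0 → ∃ φ : R →ₐ[K] K, φ f ≠ 0) (hτ : ∃ l, τ l ≠ 0)
    {n : ℕ} {r : Type} [Fintype r] (a : r → MvPolynomial (Fin n) R)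
    (ha0 : ∀ q, a q ≠ 0)
    (hNa : ∀ q, NoZero τ ({a q} : Set (MvPolynomial (Fin n) R)))
    (hP : ∀ q, ∀ P : MvPolynomial (Fin n) L, Irreducible P → P ∣ map (algebraMap R L) (a q) →
      TriDeg dm P) :
    ∃ J, ∀ f : MvPolynomial (Fin n) R, f ≠ 0 → ∃ φ : MvPolynomial (Fin n) R →ₐ[K] K, φ f ≠ 0 ∧
      ∀ q, φ (a q) ≠ 0 ∧ ∀ p : Pl K, Bad J p → vl p (φ (a q)) = 1 := by
  classical
  have halg : Function.Injective (algebraMap R L) := IsFractionRing.injective R L
  have hinj : Function.Injective (map (σ := Fin n) (algebraMap R L)) := map_injective _ halg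
  -- the factors over `L` and their representatives over `R`
  choose d Q hd hQ using fun g : MvPolynomial (Fin n) L => clearMv (R := R) g
  let M : r → Multiset (MvPolynomial (Fin n) L) := fun q =>
    UniqueFactorizationMonoid.factors (map (algebraMap R L) (a q))
  choose x y hx hy hxy using fun q => fact_clear L Q d hd hQ (a q) (ha0 q)
  let FF : Finset (MvPolynomial (Fin n) L) := Finset.univ.biUnion fun q => (M q).toFinset
  have hM : ∀ q, ∀ g ∈ M q, g ∈ FF := fun q g hg =>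
    Finset.mem_biUnion.2 ⟨q, Finset.mem_univ q, Multiset.mem_toFinset.2 hg⟩
  have hFF : ∀ g ∈ FF, Irreducible g ∧ TriDeg dm g := by
    intro g hg
    obtain ⟨q, -, hg⟩ := Finset.mem_biUnion.1 hg
    rw [Multiset.mem_toFinset] at hg
    have h1 := UniqueFactorizationMonoid.irreducible_of_factor g hg
    exact ⟨h1, hP q g h1 (UniqueFactorizationMonoid.dvd_of_mem_factors hg)⟩
  have hQ0 : ∀ g ∈ FF, Q g ≠ 0 := by
    intro g hg h0
    have h1 := hQ g
    rw [h0, map_zero] at h1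
    rcases mul_eq_zero.1 h1.symm with h2 | h2
    · rw [C_eq_zero, FaithfulSMul.algebraMap_eq_zero_iff] at h2
      exact hd g h2
    · exact (hFF g hg).1.ne_zero h2
  -- specialisation
  have hTF : ∀ g ∈ FF, ∃ H : R, H ≠ 0 ∧ ∀ φ : R →ₐ[K] K, φ H ≠ 0 →
      TF dm n (map (φ : R →+* K) (Q g)) := by
    intro g hg
    refine tf_spec L n (Q g) ?_
    rw [hQ]
    refine TF.smul ?_ n g (tf_of_irreducible n g (hFF g hg).1 (hFF g hg).2)
    rw [Ne, FaithfulSMul.algebraMap_eq_zero_iff]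
    exact hd g
  choose H hH hHφ using hTF
  have hcoef : ∀ f : MvPolynomial (Fin n) R, f ≠ 0 → ∃ m, coeff m f ≠ 0 := fun f hf =>
    ne_zero_iff.1 hf
  let H0 : R := (∏ g ∈ FF.attach, (H g.1 g.2 * coeff (hcoef _ (hQ0 g.1 g.2)).choose (Q g.1))) *
    ∏ q, (x q * y q)
  have hH0 : H0 ≠ 0 := by
    refine mul_ne_zero (Finset.prod_ne_zero_iff.2 fun g _ => mul_ne_zero (hH g.1 g.2)
      (hcoef _ (hQ0 g.1 g.2)).choose_spec) (Finset.prod_ne_zero_iff.2 fun q _ =>
        mul_ne_zero (hx q) (hy q))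
  -- `J` large
  let N1 : ℕ := FF.sup fun g => (Q g).support.card
  let Dg : ℕ := FF.sup fun g => (Q g).totalDegree
  have hUa : ∀ᶠ J in atTop, ∀ q : r,
      UnitAt (K := K) J (Nrm J τ) (Coefs ({a q} : Set (MvPolynomial (Fin n) R))) := by
    rw [Filter.eventually_all]
    intro q
    have h6 := ev_of (Pool.Agent.Helper43.Rel.unitAt_of_noZero (K := K) τ hgen ({a q} : Finset (MvPolynomial (Fin n) R))
      (by rw [Finset.coe_singleton]; exact hNa q))
    simpa only [Finset.coe_singleton] using h6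
  have hnr : ∀ᶠ J in atTop, ∀ f : R, f ≠ 0 → ∃ φ : R →ₐ[K] K, Nrm J τ φ ∧ φ f ≠ 0 :=
    ev_of (Pool.Agent.Helper49.Rel.exists_nrm_of (Pool.Agent.Helper17.Rel.exists_scale K N) τ hgen
      hcone hdense hτ)
  obtain ⟨J0, hJ0⟩ := eventually_atTop.1 (hUa.and (hnr.and (ev_of (Pool.Agent.Helper34.Rel.exists_uc' K n N1))))
  obtain ⟨J, hJ, hD⟩ := hE (Fintype.card {g // g ∈ FF} + Fintype.card (Fin 0)) Dg J0
  obtain ⟨kU, knr, kuc⟩ := hJ0 J hJ
  refine ⟨J, fun f0 hf0 => ?_⟩
  -- the point of the base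
  obtain ⟨m0, hm0⟩ := ne_zero_iff.1 (mul_ne_zero hf0 (Finset.prod_ne_zero_iff.2
    fun q (_ : q ∈ Finset.univ) => ha0 q))
  obtain ⟨φ, hφ, hφH⟩ := knr (H0 * coeff m0 (f0 * ∏ q, a q)) (mul_ne_zero hH0 hm0)
  rw [map_mul] at hφH
  have hφ0 : φ H0 ≠ 0 := left_ne_zero_of_mul hφH
  have hφm : φ (coeff m0 (f0 * ∏ q, a q)) ≠ 0 := right_ne_zero_of_mul hφH
  rw [map_mul, map_prod, map_prod] at hφ0
  have hφ1 : ∀ g (hg : g ∈ FF), φ (H g hg) ≠ 0 ∧ ∃ m, φ (coeff m (Q g)) ≠ 0 := by
    intro g hg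
    have h1 := Finset.prod_ne_zero_iff.1 (left_ne_zero_of_mul hφ0) ⟨g, hg⟩ (Finset.mem_attach _ _)
    rw [map_mul] at h1
    exact ⟨left_ne_zero_of_mul h1, _, right_ne_zero_of_mul h1⟩
  have hφ2 : ∀ q, φ (x q) ≠ 0 ∧ φ (y q) ≠ 0 := by
    intro q
    have h1 := Finset.prod_ne_zero_iff.1 (right_ne_zero_of_mul hφ0) q (Finset.mem_univ q)
    rw [map_mul] at h1
    exact ⟨left_ne_zero_of_mul h1, right_ne_zero_of_mul h1⟩
  have hQφ0 : ∀ g ∈ FF, map (φ : R →+* K) (Q g) ≠ 0 := by
    intro g hg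
    obtain ⟨m, hm⟩ := (hφ1 g hg).2
    rw [ne_zero_iff]
    exact ⟨m, by rw [coeff_map]; exact hm⟩
  have hsc : ∀ g : {g // g ∈ FF}, ∃ l : K, l ≠ 0 ∧ ∀ p : Pl K, Bad J p →
      UC p (C l * map (φ : R →+* K) (Q g.1)) := by
    intro g
    refine kuc _ (hQφ0 g.1 g.2) ?_
    refine (Finset.card_le_card (support_map_subset _ _)).trans ?_
    exact Finset.le_sup (f := fun g => (Q g).support.card) g.2
  choose l hl0 hl using hsc
  let l' : MvPolynomial (Fin n) L → K := fun g => if hg : g ∈ FF then l ⟨g, hg⟩ else 1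
  have hl' : ∀ g (hg : g ∈ FF), l' g = l ⟨g, hg⟩ := fun g hg => dif_pos hg
  obtain ⟨t, htH, htp⟩ := triClaim2 hD n {g // g ∈ FF} (Fin 0)
    (fun g => C (l g) * map (φ : R →+* K) (Q g.1)) (fun k => k.elim0)
    (map (φ : R →+* K) (f0 * ∏ q, a q)) le_rfl
    (fun g => TF.smul (hl0 g) n _ (hHφ g.1 g.2 φ (hφ1 g.1 g.2).1))
    (fun k => k.elim0)
    (by
      intro g j
      refine (degreeOf_le_totalDegree _ j).trans ?_
      have h1 : (C (l g) * map (φ : R →+* K) (Q g.1)).totalDegree ≤ (Q g.1).totalDegree := by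
        refine (totalDegree_mul _ _).trans ?_
        rw [totalDegree_C, zero_add]
        exact Finset.sup_mono (support_map_subset _ _)
      exact h1.trans (Finset.le_sup (f := fun g => (Q g).totalDegree) g.2))
    (fun k => k.elim0)
    (fun p hp g => hl g p hp)
    (fun p hp k => k.elim0)
    (by
      rw [ne_zero_iff]
      exact ⟨m0, by rw [coeff_map]; exact hφm⟩)
  have hval : ∀ f : MvPolynomial (Fin n) R, aevalTower φ t f = eval t (map (φ : R →+* K) f) :=
    aevalTower_eq_eval φ t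
  rw [← hval, map_mul, map_prod] at htH
  refine ⟨aevalTower φ t, left_ne_zero_of_mul htH, fun q =>
    ⟨Finset.prod_ne_zero_iff.1 (right_ne_zero_of_mul htH) q (Finset.mem_univ q), fun p hp => ?_⟩⟩
  rw [hval]
  have hUC : UC p (map (φ : R →+* K) (a q)) := by
    obtain ⟨h1, c, ⟨f, hf, m, rfl⟩, hc⟩ := kU q φ hφ p hp
    rw [Set.mem_singleton_iff] at hf
    subst hf
    refine ⟨fun m => ?_, m, ?_⟩
    · rw [coeff_map]
      exact h1 _ ⟨a q, rfl, m, rfl⟩
    · rw [coeff_map]
      exact hc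
  have hrel : C (φ (y q)) * map (φ : R →+* K) (a q) =
      C (φ (x q)) * ((M q).map fun g => map (φ : R →+* K) (Q g)).prod := by
    have h1 := congrArg (MvPolynomial.map (φ : R →+* K)) (hxy q)
    rw [map_mul, map_mul, map_C, map_C, map_multiset_prod, Multiset.map_map] at h1
    exact h1
  refine vl_eval_of_fact (M q) (fun g => map (φ : R →+* K) (Q g)) l' (fun g hg => ?_) hUC
    (hφ2 q).2 hrel (fun g hg => ?_) (fun g hg => ?_)
  · rw [hl' g (hM q g hg)]
    exact hl0 _
  · rw [hl' g (hM q g hg)]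
    exact hl ⟨g, hM q g hg⟩ p hp
  · rw [hl' g (hM q g hg)]
    exact (htp p hp).2.1 ⟨g, hM q g hg⟩

end Pool.Agent.Helper83.Rel
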