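import Pool.Agent.Helper83.Rel.Defs
import Pool.Agent.Helper49.CB.Cop

/-!
# T-REL, version 2: definitions
-/

set_option autoImplicit false

namespace Pool.Agent.Helper83.Rel

open NumberField Pool.Agent.Helper4.CB Pool.Agent.Helper69.CB Pool.Agent.Helper49.CB

/-- unit content at `p`: integral coefficients, one of them a unit -/
def UC {K : Type} [Field K] [NumberField K] (p : Pl K) {n : ℕ} (f : MvPolynomial (Fin n) K) :
    Prop :=
  (∀ m, vl p (f.coeff m) ≤ 1) ∧ ∃ m, vl p (f.coeff m) = 1

/-- type F: the first variable which occurs has degree at most `dm` and the coefficients with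
respect to it are coprime -/
def TF {F : Type} [Field F] (dm : ℕ) : (n : ℕ) → MvPolynomial (Fin n) F → Prop
  | 0, _ => False
  | n + 1, P => ((MvPolynomial.finSuccEquiv F n P).natDegree ≤ dm ∧
        Cop (MvPolynomial.finSuccEquiv F n P).coeffs) ∨
      ((MvPolynomial.finSuccEquiv F n P).natDegree = 0 ∧
        TF dm n ((MvPolynomial.finSuccEquiv F n P).coeff 0))

end Pool.Agent.Helper83.Rel
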