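import Pool.Agent.Helper83.Rel.Defs
import Pool.Agent.Helper43.CB.Start

/-!
# T-REL: frames of the leaf lemmas (do not import)
-/

set_option autoImplicit false

namespace Pool.Agent.Helper83.Rel

open NumberField Polynomial Pool.Agent.Helper4.CB Pool.Agent.Helper69.CB

/-- **R1.** scaling by the class group: at all bad places the coordinates are integral and one of
them is a unit.  (The fractional ideal generated by the `t l` is principal times one of finitely
many integral ideals `c`; `J` so large that no bad place divides a `c`: `Helper43.CB.start` for a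
nonzero element of each `c`.) -/
theorem exists_scale (K : Type) [Field K] [NumberField K] (N : ℕ) : ∃ J0 : ℕ, ∀ J, J0 ≤ J →
    ∀ t : Fin N → K, t ≠ 0 → ∃ l : K, l ≠ 0 ∧ ∀ p : Pl K, Bad J p →
      (∀ i, vl p (l * t i) ≤ 1) ∧ ∃ i, vl p (l * t i) = 1 := by
  sorry

/-- **R2.** dense normalised points of a cone: `φ` with `φ (f * τ l) ≠ 0`, `R1` for `φ ∘ τ`, then
scale by `lam * 2 ^ k` with `(ψ f).eval (lam * 2 ^ k) ≠ 0` (`ψ f ≠ 0` because `ψ` at `1` is `φ`);
`2` is a unit at the bad places (`start` for `S = {2}`). -/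
theorem exists_nrm {K : Type} [Field K] [NumberField K] {R : Type} [CommRing R] [IsDomain R]
    [Algebra K R] {N : ℕ} (τ : Fin N → R) (hgen : Algebra.adjoin K (Set.range τ) = ⊤)
    (hcone : ∀ φ : R →ₐ[K] K, ∃ ψ : R →ₐ[K] K[X], ∀ l, ψ (τ l) = X * C (φ (τ l)))
    (hdense : ∀ f : R, f ≠ 0 → ∃ φ : R →ₐ[K] K, φ f ≠ 0) (hτ : ∃ l, τ l ≠ 0) :
    ∃ J0 : ℕ, ∀ J, J0 ≤ J → ∀ f : R, f ≠ 0 → ∃ φ : R →ₐ[K] K, Nrm J τ φ ∧ φ f ≠ 0 := by
  sorry

/-- **R3.** for every element `c` of the ring, `J` large: integral at all points with integral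
coordinates (coefficients of one polynomial expression of `c` in the `τ l`) -/
theorem int_of_gen {K : Type} [Field K] [NumberField K] {R : Type} [CommRing R]
    [Algebra K R] {N : ℕ} (τ : Fin N → R) (hgen : Algebra.adjoin K (Set.range τ) = ⊤) (c : R) :
    ∃ J0 : ℕ, ∀ J, J0 ≤ J → ∀ φ : R →ₐ[K] K, ∀ p : Pl K, Bad J p → (∀ l, vl p (φ (τ l)) ≤ 1) →
      vl p (φ c) ≤ 1 := by
  sorry

/-- **R4.** no common zero on `T`, finitely many polynomials: unit content at all bad places and all
normalised points, `J` large (R3 for the coefficients and for the multipliers in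
`τ l ^ s = sum of multiples of coefficients`) -/
theorem unitAt_of_noZero {K : Type} [Field K] [NumberField K] {R : Type} [CommRing R]
    [Algebra K R] {N : ℕ} (τ : Fin N → R) (hgen : Algebra.adjoin K (Set.range τ) = ⊤) {n : ℕ}
    (T : Finset (MvPolynomial (Fin n) R)) (hT : NoZero τ (T : Set (MvPolynomial (Fin n) R))) :
    ∃ J0 : ℕ, ∀ J, J0 ≤ J → UnitAt J (Nrm (K := K) J τ) (Coefs (T : Set (MvPolynomial (Fin n) R))) := by
  sorry

/-- **R5.** the cone property for the quotient by a homogeneous ideal -/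
theorem cone_of_homogeneous {K : Type} [Field K] {N : ℕ}
    (I : Ideal (MvPolynomial (Fin N) K))
    (hI : ∀ f ∈ I, ∀ d : ℕ, MvPolynomial.homogeneousComponent d f ∈ I)
    (φ : (MvPolynomial (Fin N) K ⧸ I) →ₐ[K] K) :
    ∃ ψ : (MvPolynomial (Fin N) K ⧸ I) →ₐ[K] K[X], ∀ l,
      ψ (Ideal.Quotient.mk I (MvPolynomial.X l)) =
        X * C (φ (Ideal.Quotient.mk I (MvPolynomial.X l))) := by
  sorry

end Pool.Agent.Helper83.Rel
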