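import Pool.Agent.Helper83.Rel.Defs2

/-!
# T-REL, version 2: frames (do not import)
-/

set_option autoImplicit false

namespace Pool.Agent.Helper83.Rel

open NumberField Pool.Agent.Helper4.CB Pool.Agent.Helper69.CB Pool.Agent.Helper49.CB MvPolynomial

/-- **G1.** Gauss lemma: reduce to the residue field of the valuation -/
theorem UC.mul {K : Type} [Field K] [NumberField K] {p : Pl K} {n : ℕ}
    {f g : MvPolynomial (Fin n) K} (hf : UC p f) (hg : UC p g) : UC p (f * g) := by
  sorry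

/-- **G2.** scaling to unit content at all bad places (`exists_scale` = R1 of helper17 for the
coefficients on the support) -/
theorem exists_uc (K : Type) [Field K] [NumberField K]
    (hR1 : ∀ N : ℕ, ∃ J0 : ℕ, ∀ J, J0 ≤ J → ∀ t : Fin N → K, t ≠ 0 → ∃ l : K, l ≠ 0 ∧
      ∀ p : Pl K, Bad J p → (∀ i, vl p (l * t i) ≤ 1) ∧ ∃ i, vl p (l * t i) = 1) (n N : ℕ) :
    ∃ J0 : ℕ, ∀ J, J0 ≤ J → ∀ f : MvPolynomial (Fin n) K, f ≠ 0 → f.support.card ≤ N →
      ∃ l : K, l ≠ 0 ∧ ∀ p : Pl K, Bad J p → UC p (C l * f) := by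
  sorry

/-- **S1.** coprime tuples over the fraction field specialise to coprime tuples outside a divisor
(induction on `n` with `rel_bezout` and the coefficients) -/
theorem cop_spec {K : Type} [Field K] {R : Type} [CommRing R] [IsDomain R] [Algebra K R]
    (L : Type) [Field L] [Algebra R L] [IsFractionRing R L] (n : ℕ) :
    ∀ (T : Finset (MvPolynomial (Fin n) R)),
      (∀ q : MvPolynomial (Fin n) L, Irreducible q → ∃ f ∈ T, ¬ q ∣ map (algebraMap R L) f) →
      ∃ H : R, H ≠ 0 ∧ ∀ φ : R →ₐ[K] K, φ H ≠ 0 → ∀ q : MvPolynomial (Fin n) K, Irreducible q →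
        ∃ f ∈ T, ¬ q ∣ map (φ : R →+* K) f := by
  sorry

end Pool.Agent.Helper83.Rel
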